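import Pool.Agent.Results.MP_916210_gt.BetaOmega

set_option autoImplicit false

open Topology Filter Set

namespace Pool.Agent.J4.H94.CpConv

open Pool.Agent.Results.MP_916210_gt.BetaOmega

universe u v

/-- The topology of pointwise convergence on `C(X, ℝ)`. -/
abbrev ptop (X : Type u) [TopologicalSpace X] : TopologicalSpace C(X, ℝ) :=
  TopologicalSpace.induced (fun f : C(X, ℝ) => (f : X → ℝ)) inferInstance

/-- The identification of `C(X, ℝ)` with `Cp X`. -/
def conv (X : Type u) [TopologicalSpace X] : C(X, ℝ) ≃ₗ[ℝ] Cp X where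
  toFun f := ⟨f, f.continuous⟩
  invFun f := ⟨f.1, f.2⟩
  left_inv f := rfl
  right_inv f := rfl
  map_add' f g := rfl
  map_smul' c f := rfl

theorem cont_conv (X : Type u) [TopologicalSpace X] :
    @Continuous _ _ (ptop X) inferInstance (conv X) := by
  rw [continuous_induced_rng]
  exact @continuous_induced_dom _ _ (fun f : C(X, ℝ) => (f : X → ℝ)) inferInstance

theorem cont_conv_symm (X : Type u) [TopologicalSpace X] :
    @Continuous _ _ inferInstance (ptop X) (conv X).symm := by
  rw [continuous_induced_rng]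
  exact continuous_subtype_val

/-- From linear maps on `C(X, ℝ)` to maps on `Cp X`. -/
def mapTo {X : Type u} {Y : Type v} [TopologicalSpace X] [TopologicalSpace Y]
    (φ : C(X, ℝ) →ₗ[ℝ] C(Y, ℝ)) (h : @Continuous _ _ (ptop X) (ptop Y) φ) : Cp X →L[ℝ] Cp Y where
  toLinearMap := (conv Y).toLinearMap ∘ₗ φ ∘ₗ (conv X).symm.toLinearMap
  cont := (@Continuous.comp _ _ _ _ (ptop Y) _ _ _ (cont_conv Y)
    (@Continuous.comp _ _ _ _ (ptop X) (ptop Y) _ _ h (cont_conv_symm X)))

/-- From equivalences on `C(X, ℝ)` to equivalences on `Cp X`. -/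
theorem lequiv_of {X : Type u} {Y : Type v} [TopologicalSpace X] [TopologicalSpace Y]
    (e : C(X, ℝ) ≃ₗ[ℝ] C(Y, ℝ)) (h : @Continuous _ _ (ptop X) (ptop Y) e)
    (h' : @Continuous _ _ (ptop Y) (ptop X) e.symm) : LEquivalent X Y := by
  refine ⟨{ toLinearEquiv := (conv X).symm.trans (e.trans (conv Y)),
            continuous_toFun := ?_, continuous_invFun := ?_ }⟩
  · exact (@Continuous.comp _ _ _ _ (ptop Y) _ _ _ (cont_conv Y)
      (@Continuous.comp _ _ _ _ (ptop X) (ptop Y) _ _ h (cont_conv_symm X)))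
  · exact (@Continuous.comp _ _ _ _ (ptop X) _ _ _ (cont_conv X)
      (@Continuous.comp _ _ _ _ (ptop Y) (ptop X) _ _ h' (cont_conv_symm Y)))

theorem exists_of_lequiv {X : Type u} {Y : Type v} [TopologicalSpace X] [TopologicalSpace Y]
    (h : LEquivalent X Y) : ∃ e : C(X, ℝ) ≃ₗ[ℝ] C(Y, ℝ),
      @Continuous _ _ (ptop X) (ptop Y) e ∧ @Continuous _ _ (ptop Y) (ptop X) e.symm := by
  obtain ⟨L⟩ := h
  refine ⟨(conv X).trans (L.toLinearEquiv.trans (conv Y).symm), ?_, ?_⟩
  · have h1 : @Continuous _ _ (ptop X) _ (fun f => L (conv X f)) :=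
      @Continuous.comp _ _ _ (ptop X) _ _ _ _ L.continuous (cont_conv X)
    have h2 : @Continuous _ _ (ptop X) (ptop Y) (fun f => (conv Y).symm (L (conv X f))) :=
      @Continuous.comp _ _ _ (ptop X) _ (ptop Y) _ _ (cont_conv_symm Y) h1
    exact h2
  · have h1 : @Continuous _ _ (ptop Y) _ (fun f => L.symm (conv Y f)) :=
      @Continuous.comp _ _ _ (ptop Y) _ _ _ _ L.symm.continuous (cont_conv Y)
    have h2 : @Continuous _ _ (ptop Y) (ptop X) (fun f => (conv X).symm (L.symm (conv Y f))) :=
      @Continuous.comp _ _ _ (ptop Y) _ (ptop X) _ _ (cont_conv_symm X) h1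
    exact h2

/-- The one-point compactification of `ℕ` is `ℕ∞`. -/
theorem exists_homeo : Nonempty (OnePoint ℕ ≃ₜ ℕ∞) := by
  let f : OnePoint ℕ → ℕ∞ := fun x => x.elim ⊤ (fun n : ℕ => (n : ℕ∞))
  have hf : Continuous f := by
    rw [OnePoint.continuous_iff_from_nat]
    exact ENat.tendsto_natCast_nhds_top
  have hinj : Function.Injective f := by
    intro x y h
    induction x using OnePoint.rec with
    | infty =>
      induction y using OnePoint.rec with
      | infty => rfl
      | coe m => exact absurd h (ENat.natCast_ne_top m).symm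
    | coe n =>
      induction y using OnePoint.rec with
      | infty => exact absurd h (ENat.natCast_ne_top n)
      | coe m => exact congrArg _ (Nat.cast_injective (R := ℕ∞) h)
  have hsurj : Function.Surjective f := by
    intro y
    induction y using ENat.recTopCoe with
    | top => exact ⟨OnePoint.infty, rfl⟩
    | coe n => exact ⟨(n : OnePoint ℕ), rfl⟩
  exact ⟨(Continuous.homeoOfEquivCompactToT2 (f := Equiv.ofBijective f ⟨hinj, hsurj⟩) hf)⟩

end Pool.Agent.J4.H94.CpConv
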